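import Mathlib
import Pool.Agent.helper46.AlmostStabCore

/-!
# Almost stabilisers of finite direct decompositions are maximal subgroups of `GL(V)`

`V = V_1 + ... + V_n` is a direct decomposition of a vector space over a division ring into
`n` subspaces of the same infinite dimension `κ`. The subgroup of all `g` in `GL(V)` which permute
the `V_i` up to `=_κ` is a maximal subgroup of `GL(V)`.
-/

set_option autoImplicit false

namespace Pool.Agent.Results.MP_20b4cf_al.AlmostStabiliserMaximal

open Cardinal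

universe u v

section Linear

variable {F : Type u} [DivisionRing F] {V : Type v} [AddCommGroup V] [Module F V]

lemma rank_quot_lt_iff {κ : Cardinal.{v}} (U W : Submodule F V) :
    Module.rank F (↥(U ⊔ W) ⧸ U.submoduleOf (U ⊔ W)) < κ ↔
      ∃ A : Submodule F V, Module.rank F A < κ ∧ W ≤ U ⊔ A := by
  constructor
  · intro h
    obtain ⟨A', hA'⟩ := Submodule.exists_isCompl (U.submoduleOf (U ⊔ W))
    refine ⟨A'.map (U ⊔ W).subtype, ?_, ?_⟩
    · have e1 : Module.rank F (A'.map (U ⊔ W).subtype) = Module.rank F A' :=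
        (Submodule.equivMapOfInjective _ (Submodule.injective_subtype _) A').rank_eq.symm
      have e2 := (Submodule.quotientEquivOfIsCompl _ A' hA').rank_eq
      rw [e1, ← e2]; exact h
    · intro w hw
      have hmem : (⟨w, Submodule.mem_sup_right hw⟩ : ↥(U ⊔ W)) ∈
          U.submoduleOf (U ⊔ W) ⊔ A' := by
        rw [hA'.sup_eq_top]; trivial
      obtain ⟨a, ha, b, hb, hab⟩ := Submodule.mem_sup.1 hmem
      have hab' : (a : V) + (b : V) = w := by
        have := congrArg (Subtype.val) hab
        simpa using this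
      rw [← hab']
      exact Submodule.add_mem_sup ha (Submodule.mem_map_of_mem (f := (U ⊔ W).subtype) hb)
  · rintro ⟨A, hA, hW⟩
    let f : (↥(U ⊔ W) ⧸ U.submoduleOf (U ⊔ W)) →ₗ[F] V ⧸ U :=
      Submodule.mapQ _ U (U ⊔ W).subtype le_rfl
    have hf : Function.Injective f := by
      rw [← LinearMap.ker_eq_bot, LinearMap.ker_eq_bot']
      intro m hm
      induction m using Submodule.Quotient.induction_on with
      | _ x =>
        have : (Submodule.Quotient.mk (x : V) : V ⧸ U) = 0 := hm
        rw [Submodule.Quotient.mk_eq_zero] at this ⊢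
        exact this
    have hr : LinearMap.range f ≤ A.map U.mkQ := by
      rintro _ ⟨m, rfl⟩
      induction m using Submodule.Quotient.induction_on with
      | _ x =>
        obtain ⟨x, hx⟩ := x
        have hx' : x ∈ U ⊔ A := by
          have : U ⊔ W ≤ U ⊔ A := sup_le le_sup_left hW
          exact this hx
        obtain ⟨a, ha, b, hb, rfl⟩ := Submodule.mem_sup.1 hx'
        refine ⟨b, hb, ?_⟩
        change (Submodule.Quotient.mk b : V ⧸ U) = Submodule.Quotient.mk (a + b)
        rw [Submodule.Quotient.eq]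
        simpa using U.neg_mem ha
    calc Module.rank F (↥(U ⊔ W) ⧸ U.submoduleOf (U ⊔ W))
        = Module.rank F (LinearMap.range f) := (LinearEquiv.ofInjective f hf).rank_eq
      _ ≤ Module.rank F (A.map U.mkQ) := Submodule.rank_mono hr
      _ ≤ Module.rank F A := rank_map_le _ _
      _ < κ := hA

/-- `U =_κ W`: `dim ((U + W) / U) + dim ((U + W) / W) < κ`. -/
def AlmostEq (κ : Cardinal.{v}) (U W : Submodule F V) : Prop :=
  Module.rank F (↥(U ⊔ W) ⧸ U.submoduleOf (U ⊔ W)) +
    Module.rank F (↥(U ⊔ W) ⧸ W.submoduleOf (U ⊔ W)) < κ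

lemma almostEq_iff {κ : Cardinal.{v}} (hκ : ℵ₀ ≤ κ) (U W : Submodule F V) :
    AlmostEq κ U W ↔ (∃ A : Submodule F V, Module.rank F A < κ ∧ W ≤ U ⊔ A) ∧
      (∃ A : Submodule F V, Module.rank F A < κ ∧ U ≤ W ⊔ A) := by
  have h1 := rank_quot_lt_iff (κ := κ) U W
  have h2 := rank_quot_lt_iff (κ := κ) W U
  rw [sup_comm W U] at h2
  rw [← h1, ← h2]
  unfold AlmostEq
  constructor
  · intro h
    exact ⟨lt_of_le_of_lt (self_le_add_right _ _) h, lt_of_le_of_lt (self_le_add_left _ _) h⟩
  · rintro ⟨h, h'⟩
    exact Cardinal.add_lt_of_lt hκ h h'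

lemma AlmostEq.refl {κ : Cardinal.{v}} (hκ : ℵ₀ ≤ κ) (U : Submodule F V) : AlmostEq κ U U := by
  rw [almostEq_iff hκ]
  have h0 : Module.rank F (⊥ : Submodule F V) < κ := by
    rw [rank_bot]; exact lt_of_lt_of_le aleph0_pos hκ
  exact ⟨⟨⊥, h0, by simp⟩, ⟨⊥, h0, by simp⟩⟩

lemma AlmostEq.symm {κ : Cardinal.{v}} (hκ : ℵ₀ ≤ κ) {U W : Submodule F V}
    (h : AlmostEq κ U W) : AlmostEq κ W U := by
  rw [almostEq_iff hκ] at h ⊢
  exact ⟨h.2, h.1⟩

lemma AlmostEq.trans {κ : Cardinal.{v}} (hκ : ℵ₀ ≤ κ) {U W Z : Submodule F V}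
    (h : AlmostEq κ U W) (h' : AlmostEq κ W Z) : AlmostEq κ U Z := by
  rw [almostEq_iff hκ] at h h' ⊢
  obtain ⟨⟨A, hA, hA'⟩, ⟨B, hB, hB'⟩⟩ := h
  obtain ⟨⟨C, hC, hC'⟩, ⟨D, hD, hD'⟩⟩ := h'
  refine ⟨⟨A ⊔ C, ?_, ?_⟩, ⟨B ⊔ D, ?_, ?_⟩⟩
  · exact lt_of_le_of_lt (Submodule.rank_add_le_rank_add_rank _ _) (Cardinal.add_lt_of_lt hκ hA hC)
  · refine hC'.trans (sup_le (hA'.trans ?_) ?_)
    · exact sup_le_sup_left le_sup_left _
    · exact le_sup_right.trans le_sup_right
  · exact lt_of_le_of_lt (Submodule.rank_add_le_rank_add_rank _ _) (Cardinal.add_lt_of_lt hκ hB hD)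
  · refine hB'.trans (sup_le (hD'.trans ?_) ?_)
    · exact sup_le_sup_left le_sup_right _
    · exact le_sup_left.trans le_sup_right

lemma AlmostEq.map {κ : Cardinal.{v}} (hκ : ℵ₀ ≤ κ) {U W : Submodule F V}
    (h : AlmostEq κ U W) (f : V →ₗ[F] V) : AlmostEq κ (U.map f) (W.map f) := by
  rw [almostEq_iff hκ] at h ⊢
  obtain ⟨⟨A, hA, hA'⟩, ⟨B, hB, hB'⟩⟩ := h
  refine ⟨⟨A.map f, lt_of_le_of_lt (rank_map_le _ _) hA, ?_⟩,
    ⟨B.map f, lt_of_le_of_lt (rank_map_le _ _) hB, ?_⟩⟩
  · rw [← Submodule.map_sup]; exact Submodule.map_mono hA'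
  · rw [← Submodule.map_sup]; exact Submodule.map_mono hB'

/-- The almost stabiliser `M(V_1, ..., V_n)` as a subgroup of `GL(V)`. -/
def almostStabiliser {n : ℕ} (κ : Cardinal.{v}) (hκ : ℵ₀ ≤ κ) (W : Fin n → Submodule F V) :
    Subgroup (LinearMap.GeneralLinearGroup F V) where
  carrier := {g | ∃ σ : Equiv.Perm (Fin n), ∀ i,
    AlmostEq κ ((W i).map (g : V →ₗ[F] V)) (W (σ i))}
  one_mem' := by
    refine ⟨1, fun i => ?_⟩
    have : (W i).map ((1 : LinearMap.GeneralLinearGroup F V) : V →ₗ[F] V) = W i :=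
      Submodule.map_id _
    rw [this]
    exact AlmostEq.refl hκ _
  mul_mem' := by
    rintro g h ⟨σ, hσ⟩ ⟨τ, hτ⟩
    refine ⟨σ * τ, fun i => ?_⟩
    have e : (W i).map ((g * h : LinearMap.GeneralLinearGroup F V) : V →ₗ[F] V)
        = ((W i).map (h : V →ₗ[F] V)).map (g : V →ₗ[F] V) := Submodule.map_comp _ _ _
    rw [e]
    exact ((hτ i).map hκ _).trans hκ (hσ (τ i))
  inv_mem' := by
    rintro g ⟨σ, hσ⟩
    refine ⟨σ⁻¹, fun i => ?_⟩
    have h := (hσ (σ⁻¹ i)).map hκ ((g⁻¹ : LinearMap.GeneralLinearGroup F V) : V →ₗ[F] V)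
    have e : ((W (σ⁻¹ i)).map (g : V →ₗ[F] V)).map
        ((g⁻¹ : LinearMap.GeneralLinearGroup F V) : V →ₗ[F] V) = W (σ⁻¹ i) := by
      rw [← Submodule.map_comp]
      have : ((g⁻¹ : LinearMap.GeneralLinearGroup F V) : V →ₗ[F] V) ∘ₗ (g : V →ₗ[F] V)
        = LinearMap.id := Units.inv_mul g
      rw [this, Submodule.map_id]
    rw [e] at h
    have e2 : σ (σ⁻¹ i) = i := by simp
    rw [e2] at h
    exact h.symm hκ

/-- Small endomorphisms. -/
def Small (κ : Cardinal.{v}) (x : Module.End F V) : Prop := LinearMap.rank x < κ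

lemma Small.mul_right {κ : Cardinal.{v}} {x : Module.End F V} (h : Small κ x)
    (y : Module.End F V) : Small κ (x * y) :=
  lt_of_le_of_lt (LinearMap.rank_comp_le_left y x) h

lemma Small.mul_left {κ : Cardinal.{v}} {x : Module.End F V} (h : Small κ x)
    (y : Module.End F V) : Small κ (y * x) :=
  lt_of_le_of_lt (LinearMap.rank_comp_le_right x y) h

lemma Small.zero {κ : Cardinal.{v}} (hκ : ℵ₀ ≤ κ) : Small κ (0 : Module.End F V) := by
  unfold Small
  rw [LinearMap.rank_zero]
  exact lt_of_lt_of_le aleph0_pos hκ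

lemma Small.add {κ : Cardinal.{v}} (hκ : ℵ₀ ≤ κ) {x y : Module.End F V} (hx : Small κ x)
    (hy : Small κ y) : Small κ (x + y) :=
  lt_of_le_of_lt (LinearMap.rank_add_le x y) (Cardinal.add_lt_of_lt hκ hx hy)

lemma Small.sum {κ : Cardinal.{v}} (hκ : ℵ₀ ≤ κ) {η : Type*} (s : Finset η)
    (f : η → Module.End F V) (h : ∀ i ∈ s, Small κ (f i)) : Small κ (∑ i ∈ s, f i) := by
  classical
  induction s using Finset.induction_on with
  | empty => simpa using Small.zero hκ
  | insert a s ha ih =>
    rw [Finset.sum_insert ha]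
    exact (h a (Finset.mem_insert_self _ _)).add hκ
      (ih fun i hi => h i (Finset.mem_insert_of_mem hi))

lemma not_small_one {κ : Cardinal.{v}} (hV : Module.rank F V = κ) :
    ¬ Small κ (1 : Module.End F V) := by
  intro h
  unfold Small LinearMap.rank at h
  have : LinearMap.range (1 : Module.End F V) = ⊤ := LinearMap.range_id
  rw [this, rank_top, hV] at h
  exact lt_irrefl _ h

lemma PI {κ : Cardinal.{v}} (hV : Module.rank F V = κ) (x : Module.End F V)
    (hx : ¬ Small κ x) : ∃ c d : Module.End F V, d * x * c = 1 := by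
  have hr : Module.rank F (LinearMap.range x) = Module.rank F V := by
    apply le_antisymm (Submodule.rank_le _)
    rw [hV]; exact not_lt.1 hx
  let e : V ≃ₗ[F] LinearMap.range x := LinearEquiv.ofRankEq V (LinearMap.range x) hr.symm
  obtain ⟨g, hg⟩ := x.rangeRestrict.exists_rightInverse_of_surjective x.range_rangeRestrict
  have hinj : LinearMap.ker (x ∘ₗ (g ∘ₗ e.toLinearMap)) = ⊥ := by
    rw [LinearMap.ker_eq_bot]
    have h1 : x ∘ₗ (g ∘ₗ e.toLinearMap) = (LinearMap.range x).subtype ∘ₗ e.toLinearMap := by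
      ext v
      have := LinearMap.congr_fun hg (e v)
      have h2 := congrArg Subtype.val this
      simpa using h2
    rw [h1]
    exact (Submodule.injective_subtype _).comp e.injective
  obtain ⟨d, hd⟩ := LinearMap.exists_leftInverse_of_injective _ hinj
  exact ⟨g ∘ₗ e.toLinearMap, d, hd⟩

lemma S1 {κ : Cardinal.{v}} (hκ : ℵ₀ ≤ κ) (hV : Module.rank F V = κ) (x : Module.End F V)
    (hx : Small κ x) : ∃ s v : Module.End F V, s * x = 0 ∧ s * v = 1 := by
  have h := Submodule.rank_quotient_add_rank (LinearMap.range x)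
  have hq : Module.rank F (V ⧸ LinearMap.range x) = Module.rank F V := by
    rw [hV] at h ⊢
    by_contra hne
    have hlt : Module.rank F (V ⧸ LinearMap.range x) < κ :=
      lt_of_le_of_ne (h ▸ self_le_add_right _ _) hne
    exact absurd h (ne_of_lt (Cardinal.add_lt_of_lt hκ hlt hx))
  let e : (V ⧸ LinearMap.range x) ≃ₗ[F] V := LinearEquiv.ofRankEq _ _ hq
  have hsurj : LinearMap.range (e.toLinearMap ∘ₗ (LinearMap.range x).mkQ) = ⊤ := by
    rw [LinearMap.range_eq_top]
    exact e.surjective.comp (Submodule.mkQ_surjective _)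
  obtain ⟨v, hv⟩ := LinearMap.exists_rightInverse_of_surjective _ hsurj
  refine ⟨e.toLinearMap ∘ₗ (LinearMap.range x).mkQ, v, ?_, hv⟩
  apply LinearMap.ext
  intro w
  change e ((LinearMap.range x).mkQ (x w)) = 0
  have : (LinearMap.range x).mkQ (x w) = 0 := by
    rw [Submodule.mkQ_apply, Submodule.Quotient.mk_eq_zero]
    exact ⟨w, rfl⟩
  rw [this, map_zero]

lemma S2 {κ : Cardinal.{v}} (hκ : ℵ₀ ≤ κ) (hV : Module.rank F V = κ) (x : Module.End F V)
    (hx : Small κ x) : ∃ k u : Module.End F V, x * k = 0 ∧ u * k = 1 := by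
  have h := LinearMap.rank_range_add_rank_ker x
  have hq : Module.rank F (LinearMap.ker x) = Module.rank F V := by
    rw [hV] at h ⊢
    by_contra hne
    have hlt : Module.rank F (LinearMap.ker x) < κ :=
      lt_of_le_of_ne (h ▸ self_le_add_left _ _) hne
    exact absurd h (ne_of_lt (Cardinal.add_lt_of_lt hκ hx hlt))
  let e : V ≃ₗ[F] LinearMap.ker x := LinearEquiv.ofRankEq _ _ hq.symm
  have hinj : LinearMap.ker ((LinearMap.ker x).subtype ∘ₗ e.toLinearMap) = ⊥ := by
    rw [LinearMap.ker_eq_bot]
    exact (Submodule.injective_subtype _).comp e.injective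
  obtain ⟨d, hd⟩ := LinearMap.exists_leftInverse_of_injective _ hinj
  refine ⟨(LinearMap.ker x).subtype ∘ₗ e.toLinearMap, d, ?_, hd⟩
  apply LinearMap.ext
  intro w
  exact (e w).2

/-- Splitting data. -/
lemma exists_split {n : ℕ} {κ : Cardinal.{v}} (hV : Module.rank F V = κ)
    (W : Fin n → Submodule F V) (hW : DirectSum.IsInternal W)
    (hdim : ∀ i, Module.rank F (W i) = κ) :
    ∃ ι π : Fin n → Module.End F V, (∀ i, π i * ι i = 1) ∧ (∀ i j, i ≠ j → π i * ι j = 0) ∧
      ∑ i, ι i * π i = 1 ∧ ∀ i, LinearMap.range (ι i) = W i := by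
  let Φ : (DirectSum (Fin n) fun i => W i) ≃ₗ[F] V :=
    LinearEquiv.ofBijective (DirectSum.coeLinearMap W) hW
  have hΦ : ∀ (i : Fin n) (w : W i), Φ.symm (w : V) = DirectSum.lof F (Fin n) (fun i => W i) i w := by
    intro i w
    rw [LinearEquiv.symm_apply_eq]
    exact (DirectSum.coeLinearMap_lof W i w).symm
  let e : ∀ i, V ≃ₗ[F] W i := fun i => LinearEquiv.ofRankEq _ _ (hV.trans (hdim i).symm)
  refine ⟨fun i => (W i).subtype ∘ₗ (e i).toLinearMap,
    fun i => (e i).symm.toLinearMap ∘ₗ (DirectSum.component F (Fin n) (fun i => W i) i) ∘ₗ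
      Φ.symm.toLinearMap, ?_, ?_, ?_, ?_⟩
  · intro i
    apply LinearMap.ext
    intro v
    change (e i).symm (DirectSum.component F (Fin n) (fun i => W i) i
      (Φ.symm ((e i v : W i) : V))) = v
    rw [hΦ, DirectSum.component.lof_self]
    simp
  · intro i j hij
    apply LinearMap.ext
    intro v
    change (e i).symm (DirectSum.component F (Fin n) (fun i => W i) i
      (Φ.symm ((e j v : W j) : V))) = 0
    rw [hΦ, DirectSum.component.of, dif_neg hij.symm, map_zero]
  · apply LinearMap.ext
    intro v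
    obtain ⟨x, rfl⟩ := Φ.surjective v
    rw [LinearMap.sum_apply]
    change ∑ i, (((e i) ((e i).symm (DirectSum.component F (Fin n) (fun i => W i) i
      (Φ.symm (Φ x)))) : W i) : V) = Φ x
    simp only [LinearEquiv.symm_apply_apply, LinearEquiv.apply_symm_apply]
    induction x using DirectSum.induction_on with
    | zero => simp
    | of i w =>
      have h1 : Φ (DirectSum.of (fun i => W i) i w) = w := DirectSum.coeLinearMap_of W i w
      rw [h1, Finset.sum_eq_single i]
      · have : DirectSum.component F (Fin n) (fun i => W i) i (DirectSum.of (fun i => W i) i w)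
          = w := DirectSum.component.lof_self F (M := fun i => W i) i w
        rw [this]
      · intro j _ hj
        have : DirectSum.component F (Fin n) (fun i => W i) j (DirectSum.of (fun i => W i) i w)
          = 0 := by
          have := DirectSum.component.of F (M := fun i => W i) j i w
          rw [dif_neg hj.symm] at this
          exact this
        rw [this]; rfl
      · intro h; exact absurd (Finset.mem_univ _) h
    | add x y hx hy =>
      simp only [map_add, Submodule.coe_add, Finset.sum_add_distrib, hx, hy]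
  · intro i
    rw [LinearMap.range_comp, LinearEquiv.range, Submodule.map_top, Submodule.range_subtype]

end Linear

section MainProof

variable {F : Type u} [DivisionRing F] {V : Type v} [AddCommGroup V] [Module F V]

/-- Total rank. -/
lemma rank_total {n : ℕ} (hn : 2 ≤ n) {κ : Cardinal.{v}} (hκ : ℵ₀ ≤ κ)
    (W : Fin n → Submodule F V) (hW : DirectSum.IsInternal W)
    (hdim : ∀ i, Module.rank F (W i) = κ) : Module.rank F V = κ := by
  apply le_antisymm
  · have htop : (⨆ i, W i) = ⊤ := hW.submodule_iSup_eq_top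
    have key : ∀ s : Finset (Fin n), Module.rank F (↥(s.sup W)) ≤ κ := by
      intro s
      classical
      induction s using Finset.induction_on with
      | empty => rw [Finset.sup_empty, rank_bot]; exact zero_le
      | insert a s ha ih =>
        rw [Finset.sup_insert]
        refine (Submodule.rank_add_le_rank_add_rank _ _).trans ?_
        rw [hdim a]
        calc κ + Module.rank F (↥(s.sup W)) ≤ κ + κ := by gcongr
          _ = κ := Cardinal.add_eq_self hκ
    have h := key Finset.univ
    rw [Finset.sup_univ_eq_iSup, htop, rank_top] at h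
    exact h
  · rw [← hdim ⟨0, by omega⟩]
    exact Submodule.rank_le _

lemma almostEq_small {n : ℕ} {κ : Cardinal.{v}} (hκ : ℵ₀ ≤ κ)
    (ι π : Fin n → Module.End F V) (hii : ∀ i, π i * ι i = 1)
    (hij : ∀ i j, i ≠ j → π i * ι j = 0)
    (g : Module.End F V) (i k : Fin n)
    (h : AlmostEq κ ((LinearMap.range (ι i)).map g) (LinearMap.range (ι k))) (j : Fin n)
    (hj : j ≠ k) : Small κ (π j * g * ι i) := by
  rw [almostEq_iff hκ] at h
  obtain ⟨-, A, hA, hA'⟩ := h
  have : LinearMap.range (π j * g * ι i) ≤ A.map (π j) := by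
    rintro _ ⟨v, rfl⟩
    have h1 : g (ι i v) ∈ LinearMap.range (ι k) ⊔ A :=
      hA' (Submodule.mem_map_of_mem (LinearMap.mem_range_self _ _))
    obtain ⟨_, ⟨w, rfl⟩, b, hb, hab⟩ := Submodule.mem_sup.1 h1
    refine ⟨b, hb, ?_⟩
    change π j b = π j (g (ι i v))
    rw [← hab, map_add]
    have h2 : π j (ι k w) = 0 := LinearMap.congr_fun (hij j k hj) w
    rw [h2, zero_add]
  exact lt_of_le_of_lt (Submodule.rank_mono this) (lt_of_le_of_lt (rank_map_le _ _) hA)

/-- Elements of `M` are recognised on blocks. -/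
lemma exists_blocks {n : ℕ} {κ : Cardinal.{v}} (hκ : ℵ₀ ≤ κ) (hV : Module.rank F V = κ)
    (ι π : Fin n → Module.End F V) (hii : ∀ i, π i * ι i = 1)
    (hij : ∀ i j, i ≠ j → π i * ι j = 0) (hs : ∑ i, ι i * π i = 1)
    (g : LinearMap.GeneralLinearGroup F V)
    (hg : ¬ ∃ σ : Equiv.Perm (Fin n), ∀ i,
      AlmostEq κ ((LinearMap.range (ι i)).map (g : V →ₗ[F] V)) (LinearMap.range (ι (σ i)))) :
    ∃ i j l : Fin n, j ≠ l ∧ ¬ Small κ (π j * (g : Module.End F V) * ι i) ∧
      ¬ Small κ (π i * ((g⁻¹ : LinearMap.GeneralLinearGroup F V) : Module.End F V) * ι l) := by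
  by_contra hcon
  push Not at hcon
  apply hg
  set G : Module.End F V := (g : Module.End F V) with hG
  set G' : Module.End F V := ((g⁻¹ : LinearMap.GeneralLinearGroup F V) : Module.End F V) with hG'
  have hGG' : G * G' = 1 := Units.mul_inv g
  have hG'G : G' * G = 1 := Units.inv_mul g
  -- columns of G are not small
  have hcol : ∀ i, ∃ j, ¬ Small κ (π j * G * ι i) := by
    intro i
    by_contra h
    push Not at h
    have h1 : Small κ (∑ j, ι j * (π j * G * ι i)) :=
      Small.sum hκ _ _ fun j _ => (h j).mul_left _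
    have h2 : ∑ j, ι j * (π j * G * ι i) = G * ι i := by
      calc ∑ j, ι j * (π j * G * ι i) = (∑ j, ι j * π j) * (G * ι i) := by
            rw [Finset.sum_mul]; simp only [mul_assoc]
        _ = _ := by rw [hs, one_mul]
    rw [h2] at h1
    have h3 := h1.mul_left (π i * G')
    have h4 : π i * G' * (G * ι i) = 1 := by
      calc π i * G' * (G * ι i) = π i * (G' * G) * ι i := by noncomm_ring
        _ = 1 := by rw [hG'G, mul_one, hii]
    rw [h4] at h3
    exact not_small_one hV h3
  have hrow : ∀ j, ∃ i, ¬ Small κ (π j * G * ι i) := by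
    intro j
    by_contra h
    push Not at h
    have h1 : Small κ (∑ i, (π j * G * ι i) * π i) :=
      Small.sum hκ _ _ fun i _ => (h i).mul_right _
    have h2 : ∑ i, (π j * G * ι i) * π i = π j * G := by
      calc ∑ i, (π j * G * ι i) * π i = (π j * G) * (∑ i, ι i * π i) := by
            rw [Finset.mul_sum]; simp only [mul_assoc]
        _ = _ := by rw [hs, mul_one]
    rw [h2] at h1
    have h3 := h1.mul_right (G' * ι j)
    have h4 : π j * G * (G' * ι j) = 1 := by
      calc π j * G * (G' * ι j) = π j * (G * G') * ι j := by noncomm_ring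
        _ = 1 := by rw [hGG', mul_one, hii]
    rw [h4] at h3
    exact not_small_one hV h3
  have hrow' : ∀ i, ∃ l, ¬ Small κ (π i * G' * ι l) := by
    intro i
    by_contra h
    push Not at h
    have h1 : Small κ (∑ l, (π i * G' * ι l) * π l) :=
      Small.sum hκ _ _ fun l _ => (h l).mul_right _
    have h2 : ∑ l, (π i * G' * ι l) * π l = π i * G' := by
      calc ∑ l, (π i * G' * ι l) * π l = (π i * G') * (∑ l, ι l * π l) := by
            rw [Finset.mul_sum]; simp only [mul_assoc]
        _ = _ := by rw [hs, mul_one]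
    rw [h2] at h1
    have h3 := h1.mul_right (G * ι i)
    have h4 : π i * G' * (G * ι i) = 1 := by
      calc π i * G' * (G * ι i) = π i * (G' * G) * ι i := by noncomm_ring
        _ = 1 := by rw [hG'G, mul_one, hii]
    rw [h4] at h3
    exact not_small_one hV h3
  choose σ hσ using hcol
  have hσ2 : ∀ i l, l ≠ σ i → Small κ (π i * G' * ι l) := by
    intro i l hl
    by_contra h
    exact h (hcon i (σ i) l hl.symm (hσ i))
  have hσ3 : ∀ i j, j ≠ σ i → Small κ (π j * G * ι i) := by
    intro i j hj
    by_contra h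
    obtain ⟨l, hl⟩ := hrow' i
    have hl' : l = σ i := by
      by_contra hne
      exact hl (hσ2 i l hne)
    subst hl'
    exact hl (hcon i j (σ i) hj h)
  have hsurj : Function.Surjective σ := by
    intro j
    obtain ⟨i, hi⟩ := hrow j
    refine ⟨i, ?_⟩
    by_contra hne
    exact hi (hσ3 i j (Ne.symm hne))
  have hbij : Function.Bijective σ := Finite.surjective_iff_bijective.1 hsurj
  refine ⟨Equiv.ofBijective σ hbij, fun i => ?_⟩
  change AlmostEq κ ((LinearMap.range (ι i)).map G) (LinearMap.range (ι (σ i)))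
  rw [almostEq_iff hκ]
  constructor
  · -- range ι (σ i) ≤ g range ι i + small
    have hsm : Small κ (∑ k ∈ Finset.univ.erase i, G * (ι k * (π k * G' * ι (σ i)))) := by
      refine Small.sum hκ _ _ fun k hk => ?_
      have hki : k ≠ i := (Finset.mem_erase.1 hk).1
      exact ((hσ2 k (σ i) (fun h => hki (hbij.1 h.symm))).mul_left _).mul_left _
    refine ⟨LinearMap.range (∑ k ∈ Finset.univ.erase i, G * (ι k * (π k * G' * ι (σ i)))),
      hsm, ?_⟩
    rintro _ ⟨v, rfl⟩
    have e : ι (σ i) = G * (ι i * (π i * G' * ι (σ i))) +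
        ∑ k ∈ Finset.univ.erase i, G * (ι k * (π k * G' * ι (σ i))) := by
      rw [Finset.add_sum_erase Finset.univ
        (fun k => G * (ι k * (π k * G' * ι (σ i)))) (Finset.mem_univ i)]
      calc ι (σ i) = G * (∑ k, ι k * π k) * G' * ι (σ i) := by
            rw [hs, mul_one, hGG', one_mul]
        _ = _ := by
            rw [Finset.mul_sum, Finset.sum_mul, Finset.sum_mul]
            refine Finset.sum_congr rfl fun k _ => ?_
            simp only [mul_assoc]
    have e2 := LinearMap.congr_fun e v
    rw [LinearMap.add_apply] at e2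
    rw [e2]
    refine Submodule.add_mem_sup ?_ (LinearMap.mem_range_self _ _)
    exact Submodule.mem_map_of_mem (LinearMap.mem_range_self (ι i) ((π i * G' * ι (σ i)) v))
  · have hsm : Small κ (∑ k ∈ Finset.univ.erase (σ i), ι k * (π k * G * ι i)) := by
      refine Small.sum hκ _ _ fun k hk => ?_
      exact (hσ3 i k (Finset.mem_erase.1 hk).1).mul_left _
    refine ⟨_, hsm, ?_⟩
    rintro _ ⟨_, ⟨v, rfl⟩, rfl⟩
    have e : G * ι i = ι (σ i) * (π (σ i) * G * ι i) +
        ∑ k ∈ Finset.univ.erase (σ i), ι k * (π k * G * ι i) := by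
      rw [Finset.add_sum_erase Finset.univ
        (fun k => ι k * (π k * G * ι i)) (Finset.mem_univ (σ i))]
      calc G * ι i = (∑ k, ι k * π k) * (G * ι i) := by
            rw [hs, one_mul]
        _ = _ := by
            rw [Finset.sum_mul]
            refine Finset.sum_congr rfl fun k _ => ?_
            simp only [mul_assoc]
    have e' : G (ι i v) = (G * ι i) v := rfl
    rw [e', e, LinearMap.add_apply]
    refine Submodule.add_mem_sup ?_ (LinearMap.mem_range_self _ _)
    exact LinearMap.mem_range_self (ι (σ i)) ((π (σ i) * G * ι i) v)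

/-- **Main theorem.** -/
theorem main {n : ℕ} (hn : 2 ≤ n) {κ : Cardinal.{v}} (hκ : ℵ₀ ≤ κ)
    (W : Fin n → Submodule F V) (hW : DirectSum.IsInternal W)
    (hdim : ∀ i, Module.rank F (W i) = κ) : IsCoatom (almostStabiliser κ hκ W) := by
  have hV := rank_total hn hκ W hW hdim
  obtain ⟨ι, π, hii, hij, hs, hr⟩ := exists_split hV W hW hdim
  have hr' : W = fun i => LinearMap.range (ι i) := funext fun i => (hr i).symm
  subst hr'
  set M := almostStabiliser κ hκ (fun i => LinearMap.range (ι i)) with hM
  have memM : ∀ g : LinearMap.GeneralLinearGroup F V, g ∈ M ↔ ∃ σ : Equiv.Perm (Fin n), ∀ i,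
      AlmostEq κ ((LinearMap.range (ι i)).map (g : V →ₗ[F] V)) (LinearMap.range (ι (σ i))) :=
    fun g => Iff.rfl
  have hij' : ∀ i j x, i ≠ j → π i * (ι j * x) = 0 := fun i j x h => by
    rw [← mul_assoc, hij i j h, zero_mul]
  have hii' : ∀ i x, π i * (ι i * x) = x := fun i x => by
    rw [← mul_assoc, hii i, one_mul]
  -- a general criterion for membership in M
  have crit : ∀ (g : LinearMap.GeneralLinearGroup F V) (σ : Equiv.Perm (Fin n))
      (u : Fin n → Module.End F V) (u' : Fin n → Module.End F V), (∀ k, u k * u' k = 1) →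
      (∀ k, (g : Module.End F V) * ι k = ι (σ k) * u k) → g ∈ M := by
    intro g σ u u' huu hgu
    rw [memM]
    refine ⟨σ, fun k => ?_⟩
    have e : (LinearMap.range (ι k)).map (g : V →ₗ[F] V) = LinearMap.range (ι (σ k)) := by
      rw [← LinearMap.range_comp]
      have h1 : (g : V →ₗ[F] V) ∘ₗ ι k = ι (σ k) ∘ₗ u k := hgu k
      rw [h1]
      apply LinearMap.range_comp_of_range_eq_top
      rw [LinearMap.range_eq_top]
      intro v
      exact ⟨u' k v, LinearMap.congr_fun (huu k) v⟩
    rw [e]
    exact AlmostEq.refl hκ _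
  constructor
  · -- M is proper
    intro htop
    have h01 : (⟨0, by omega⟩ : Fin n) ≠ ⟨1, by omega⟩ := by
      intro h; simp at h
    obtain ⟨a, ha⟩ : ∃ a : Fin n, a = ⟨0, by omega⟩ := ⟨_, rfl⟩
    obtain ⟨b, hb⟩ : ∃ b : Fin n, b = ⟨1, by omega⟩ := ⟨_, rfl⟩
    have hab : a ≠ b := by rw [ha, hb]; exact h01
    have hN : (ι b * π a) * (ι b * π a) = 0 := by
      rw [mul_assoc, hij' a b _ hab, mul_zero]
    let g : LinearMap.GeneralLinearGroup F V := ⟨1 + ι b * π a, 1 - ι b * π a, by
      have : (1 + ι b * π a) * (1 - ι b * π a) = 1 - (ι b * π a) * (ι b * π a) := by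
        noncomm_ring
      rw [this, hN, sub_zero], by
      have : (1 - ι b * π a) * (1 + ι b * π a) = 1 - (ι b * π a) * (ι b * π a) := by
        noncomm_ring
      rw [this, hN, sub_zero]⟩
    have hg : g ∈ M := by rw [htop]; trivial
    obtain ⟨σ, hσ⟩ := (memM g).1 hg
    have hA := almostEq_small hκ ι π hii hij _ a (σ a) (hσ a)
    have e1 : π a * (1 + ι b * π a) * ι a = 1 := by
      calc π a * (1 + ι b * π a) * ι a = π a * ι a + π a * (ι b * π a) * ι a := by noncomm_ring
        _ = 1 := by rw [hij' a b _ hab, hii, zero_mul, add_zero]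
    have e2 : π b * (1 + ι b * π a) * ι a = 1 := by
      calc π b * (1 + ι b * π a) * ι a = π b * ι a + π b * (ι b * (π a * ι a)) := by noncomm_ring
        _ = 1 := by rw [hii', hij b a hab.symm, hii, zero_add]
    by_cases hc : a = σ a
    · have := hA b (fun h => hab (hc.trans h.symm))
      change Small κ (π b * (1 + ι b * π a) * ι a) at this
      rw [e2] at this
      exact not_small_one hV this
    · have := hA a hc
      change Small κ (π a * (1 + ι b * π a) * ι a) at this
      rw [e1] at this
      exact not_small_one hV this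
  · -- maximality
    intro H hH
    obtain ⟨g, hgH, hgM⟩ := SetLike.exists_of_lt hH
    rw [memM] at hgM
    obtain ⟨i, j, l, hjl, hb, ha⟩ := exists_blocks hκ hV ι π hii hij hs g hgM
    refine Pool.Agent.helper46.AlmostStab.Core.nBlock (S := Small κ) (PI hV) (S1 hκ hV) (S2 hκ hV)
      (fun x y h => h.mul_right y) ι π hii hij hs ?_ ?_ ?_ g hgH hjl hb ha
    · -- complementary block
      intro i0
      obtain ⟨i1, hi1⟩ : ∃ i1 : Fin n, i1 ≠ i0 := by
        by_cases h : i0 = ⟨0, by omega⟩
        · refine ⟨⟨1, by omega⟩, ?_⟩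
          rw [h]; intro h'; simp at h'
        · exact ⟨⟨0, by omega⟩, Ne.symm h⟩
      have hker : Module.rank F (LinearMap.ker (π i0)) = κ := by
        apply le_antisymm
        · rw [← hV]; exact Submodule.rank_le _
        · rw [← hdim i1]
          apply Submodule.rank_mono
          rintro _ ⟨v, rfl⟩
          exact LinearMap.congr_fun (hij i0 i1 hi1.symm) v
      let e : V ≃ₗ[F] LinearMap.ker (π i0) := LinearEquiv.ofRankEq _ _ (hV.trans hker.symm)
      have hpr : ∀ v, (1 - ι i0 * π i0 : Module.End F V) v ∈ LinearMap.ker (π i0) := by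
        intro v
        have h1 : π i0 * (1 - ι i0 * π i0) = 0 := by
          rw [mul_sub, mul_one, hii', sub_self]
        exact LinearMap.congr_fun h1 v
      let q : V →ₗ[F] LinearMap.ker (π i0) :=
        LinearMap.codRestrict _ (1 - ι i0 * π i0 : Module.End F V) hpr
      have hqk : ∀ w : LinearMap.ker (π i0), q w = w := by
        intro w
        apply Subtype.ext
        change (w : V) - ι i0 (π i0 w) = w
        have : π i0 (w : V) = 0 := w.2
        rw [this, map_zero, sub_zero]
      refine ⟨(LinearMap.ker (π i0)).subtype ∘ₗ e.toLinearMap, e.symm.toLinearMap ∘ₗ q,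
        ?_, ?_, ?_, ?_⟩
      · apply LinearMap.ext
        intro v
        change e.symm (q ((e v : LinearMap.ker (π i0)) : V)) = v
        rw [hqk, LinearEquiv.symm_apply_apply]
      · apply LinearMap.ext
        intro v
        change e.symm (q (ι i0 v)) = 0
        have : q (ι i0 v) = 0 := by
          apply Subtype.ext
          change (ι i0 v : V) - ι i0 (π i0 (ι i0 v)) = 0
          have h2 : π i0 (ι i0 v) = v := LinearMap.congr_fun (hii i0) v
          rw [h2, sub_self]
        rw [this, map_zero]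
      · apply LinearMap.ext
        intro v
        exact (e v).2
      · apply LinearMap.ext
        intro v
        change ι i0 (π i0 v) + ((e (e.symm (q v)) : LinearMap.ker (π i0)) : V) = v
        rw [LinearEquiv.apply_symm_apply]
        change ι i0 (π i0 v) + (v - ι i0 (π i0 v)) = v
        abel
    · -- diagonal elements
      intro i u
      have h1 : (1 + ι i * ((u : Module.End F V) - 1) * π i) *
          (1 + ι i * (((u⁻¹ : (Module.End F V)ˣ) : Module.End F V) - 1) * π i) = 1 := by
        calc _ = 1 + ι i * ((u : Module.End F V) - 1) * π i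
              + ι i * (((u⁻¹ : (Module.End F V)ˣ) : Module.End F V) - 1) * π i
              + ι i * ((u : Module.End F V) - 1) * (π i * (ι i *
                ((((u⁻¹ : (Module.End F V)ˣ) : Module.End F V) - 1) * π i))) := by
                noncomm_ring
          _ = 1 + ι i * ((u : Module.End F V) * ((u⁻¹ : (Module.End F V)ˣ) : Module.End F V)
                - 1) * π i := by
                rw [hii']; noncomm_ring
          _ = 1 := by rw [Units.mul_inv]; simp
      have h2 : (1 + ι i * (((u⁻¹ : (Module.End F V)ˣ) : Module.End F V) - 1) * π i) *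
          (1 + ι i * ((u : Module.End F V) - 1) * π i) = 1 := by
        calc _ = 1 + ι i * ((u : Module.End F V) - 1) * π i
              + ι i * (((u⁻¹ : (Module.End F V)ˣ) : Module.End F V) - 1) * π i
              + ι i * (((u⁻¹ : (Module.End F V)ˣ) : Module.End F V) - 1) * (π i * (ι i *
                (((u : Module.End F V) - 1) * π i))) := by
                noncomm_ring
          _ = 1 + ι i * (((u⁻¹ : (Module.End F V)ˣ) : Module.End F V) * (u : Module.End F V)
                - 1) * π i := by
                rw [hii']; noncomm_ring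
          _ = 1 := by rw [Units.inv_mul]; simp
      refine ⟨⟨_, _, h1, h2⟩, ?_, rfl⟩
      apply hH.le
      refine crit _ 1 (fun k => if k = i then (u : Module.End F V) else 1)
        (fun k => if k = i then ((u⁻¹ : (Module.End F V)ˣ) : Module.End F V) else 1) ?_ ?_
      · intro k
        by_cases hk : k = i
        · simp only [if_pos hk, Units.mul_inv]
        · simp only [if_neg hk, mul_one]
      · intro k
        change (1 + ι i * ((u : Module.End F V) - 1) * π i) * ι k = ι k * _
        by_cases hk : k = i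
        · subst hk
          simp only [if_true]
          calc (1 + ι k * ((u : Module.End F V) - 1) * π k) * ι k
              = ι k + ι k * ((u : Module.End F V) - 1) * (π k * ι k) := by noncomm_ring
            _ = ι k * u := by rw [hii]; noncomm_ring
        · simp only [if_neg hk, mul_one]
          calc (1 + ι i * ((u : Module.End F V) - 1) * π i) * ι k
              = ι k + ι i * ((u : Module.End F V) - 1) * (π i * ι k) := by noncomm_ring
            _ = ι k := by rw [hij i k (Ne.symm hk), mul_zero, add_zero]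
    · -- permutations
      intro σ
      have pι : ∀ (τ : Equiv.Perm (Fin n)) (a : Fin n), (∑ i, ι (τ i) * π i) * ι a = ι (τ a) := by
        intro τ a
        rw [Finset.sum_mul, Finset.sum_eq_single a]
        · rw [mul_assoc, hii, mul_one]
        · intro b _ hb
          rw [mul_assoc, hij b a hb, mul_zero]
        · intro h; exact absurd (Finset.mem_univ a) h
      have pp : ∀ τ ρ : Equiv.Perm (Fin n), (∀ a, τ (ρ a) = a) →
          (∑ i, ι (τ i) * π i) * (∑ i, ι (ρ i) * π i) = 1 := by
        intro τ ρ h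
        rw [Finset.mul_sum, ← hs]
        refine Finset.sum_congr rfl fun a _ => ?_
        rw [← mul_assoc, pι, h]
      refine ⟨⟨_, _, pp σ σ⁻¹ (fun a => by simp), pp σ⁻¹ σ (fun a => by simp)⟩, ?_, rfl⟩
      apply hH.le
      refine crit _ σ (fun _ => 1) (fun _ => 1) (fun _ => mul_one 1) ?_
      intro k
      change (∑ i, ι (σ i) * π i) * ι k = ι (σ k) * 1
      rw [pι, mul_one]

end MainProof

/-- **Almost stabilisers are maximal.** For every division ring `F`, infinite cardinal `κ`,
`n ≥ 2` and direct decomposition `V = V_1 + ... + V_n` into subspaces of dimension `κ`, the almost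
stabiliser `M(V_1, ..., V_n)` is a maximal subgroup of `GL(V)`. -/
theorem result {F : Type u} [DivisionRing F] {V : Type v} [AddCommGroup V] [Module F V]
    (κ : Cardinal.{v}) (hκ : ℵ₀ ≤ κ) (n : ℕ) (hn : 2 ≤ n) (W : Fin n → Submodule F V)
    (hW : DirectSum.IsInternal W) (hdim : ∀ i, Module.rank F (W i) = κ) :
    IsCoatom (almostStabiliser κ hκ W) :=
  main hn hκ W hW hdim

end Pool.Agent.Results.MP_20b4cf_al.AlmostStabiliserMaximal
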